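import Pool.Agent.U534.EllLog

/-!
# Elliptic logarithms, their quasi-logarithms and logarithms above almost all points of infinitely many windows

Let `L` be a lattice with rational invariants `g₂`, `g₃`. For algebraic `t` let `p`, `l` be ANY complex numbers with
`℘(p) = t`, `exp(l) = t`. By the conjecture of the problem (with `m = n`) the elliptic logarithms `p` and the logarithms `l`
above different numbers `t` are algebraically independent as soon as they satisfy the obvious linear conditions.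

Let `Ξ_0, Ξ_1, …` be any sets of complex numbers such that `Ξ_j` contains algebraic numbers `ξ` of arbitrarily large
absolute value which are roots of integral polynomials of degree at most `m_j` with coefficients at most `|ξ|^(A_j)`; here
the degrees `m_j` and the exponents `A_j` may grow with `j` as fast as one likes. We construct ONE infinite set
`𝒯 = T_0 ∪ T_1 ∪ ⋯` of algebraic numbers: `T_j` consists of the numbers `ξ + 1, …, ξ + H` for some `ξ ∈ Ξ_j` and some `H`
with the exception of a proportion of at most `1 / (j + 1)`, such that the numbers `p`, `ζ(p)`, `l` above the elements of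
`𝒯` are asymptotically algebraically independent:

* Let `F` be any countable set of complex numbers, for instance the algebraic closure of the field generated by the periods
  and quasi-periods of `L`, `π` and all `℘(x)`, `ζ(x)`, `e^x` with algebraic `x`. There is such a set `𝒯` with the following
  property. For every `n` and every nonzero polynomial `P` in `3n` variables with coefficients in `F`, of any degree, there is
  `k` such that `P(p_i, ζ(p_i), l_i) ≠ 0` for **all** `p_i`, `l_i` with `℘(p_i) = exp(l_i) = t_i`, where `t_1, …, t_n` are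
  any distinct elements of `T_k ∪ T_(k + 1) ∪ ⋯`.
* Let `V_0 ⊆ V_1 ⊆ ⋯` be any finite dimensional `ℚ`-vector spaces of complex numbers and `δ_0 ≤ δ_1 ≤ ⋯` any integers
  (they may grow as fast as one likes). There is such a set `𝒯` such that for all choices of `p_t`, `l_t` above the elements
  `t` of `𝒯` and for all `k` the numbers `p_t`, `ζ(p_t)`, `l_t` for `t ∈ T_k ∪ T_(k + 1) ∪ ⋯` satisfy no nontrivial
  polynomial relation in any number of variables, of degree at most `δ_k` in each variable, with coefficients in `K V_k`,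
  `K` any number field of degree at most `δ_k`.

The library theorem `MP_c9768e_nt.AlgebraicWindows` (`Pool.Agent.Y916.Sl.ellW`) treats `r` distinct elements of one short
window.
-/

set_option autoImplicit false

open scoped PeriodPair

namespace Pool.Agent.Results.MP_c9768e_nt.AlmostFullWindows

/-- The Weierstrass zeta function `ζ(z) = ∑ (1/(z-l) + 1/l + z/l²)`, the sum over the lattice (the summand of `l = 0` is
`1/z`, since `1/0 = 0` in Lean). -/
noncomputable def zeta (L : PeriodPair) (z : ℂ) : ℂ := ∑' l : L.lattice, (1 / (z - l) + 1 / l + z / l ^ 2)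

/-- the three numbers `p`, `ζ(p)`, `l` -/
noncomputable def numbers (L : PeriodPair) (p l : ℂ) : Fin 3 → ℂ := ![p, zeta L p, l]

/-- `Ξ j` contains numbers `ξ` of arbitrarily large absolute value which are roots of nonzero integral polynomials of degree
at most `m j` with coefficients at most `|ξ| ^ (A j)`. -/
def Rich (m A : ℕ → ℕ) (Ξ : ℕ → Set ℂ) : Prop :=
  ∀ j N : ℕ, ∃ ξ ∈ Ξ j, (N : ℝ) ≤ ‖ξ‖ ∧
    ∃ p : Polynomial ℤ, p ≠ 0 ∧ p.natDegree ≤ m j ∧ (∀ i, |(p.coeff i : ℝ)| ≤ ‖ξ‖ ^ A j) ∧ Polynomial.aeval ξ p = 0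

/-- The finite sets `T j` are disjoint; `T j` contains the points `ξ + 1, …, ξ + H` for some `ξ ∈ Ξ j` and some `H`, up to a
proportion of at most `1 / (j + 1)`, it has at least `j` elements and they have absolute value at least `j + 1`. -/
def AlmostFull (Ξ : ℕ → Set ℂ) (T : ℕ → Finset ℂ) : Prop :=
  (∀ i j, i ≠ j → Disjoint (T i) (T j)) ∧ ∀ j : ℕ, ∃ ξ ∈ Ξ j, ∃ H : ℕ,
    (∀ t ∈ T j, (j : ℝ) + 1 ≤ ‖t‖ ∧ ∃ g : ℕ, 1 ≤ g ∧ g ≤ H ∧ t = ξ + g) ∧ j ≤ (T j).card ∧ (j + 1) * (H - (T j).card) ≤ H

/-- `p` and `l` choose elliptic logarithms and logarithms of the elements of the sets `T j`. -/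
def Above (L : PeriodPair) (T : ℕ → Finset ℂ) (p l : ℂ → ℂ) : Prop :=
  ∀ j, ∀ t ∈ T j, p t ∉ L.lattice ∧ ℘[L] (p t) = t ∧ Complex.exp (l t) = t

section proofs

open Pool.Agent.U534.Tens

lemma numbers_mem (L : PeriodPair) {t p l : ℂ} (h : p ∉ L.lattice ∧ ℘[L] p = t ∧ Complex.exp l = t) :
    numbers L p l ∈ Y3 L t := ⟨p, l, h.1, h.2.1, h.2.2, rfl⟩

end proofs

/-- **Main result.** -/
theorem result (L : PeriodPair) (a b : ℚ) (ha : L.g₂ = a) (hb : L.g₃ = b) (m A : ℕ → ℕ) (Ξ : ℕ → Set ℂ)
    (hΞ : Rich m A Ξ) :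
    -- all polynomials over a countable set of constants
    (∀ F : Set ℂ, F.Countable → ∃ T : ℕ → Finset ℂ, AlmostFull Ξ T ∧
      ∀ (n : ℕ) (P : MvPolynomial (Fin n × Fin 3) ℂ), P ≠ 0 → (∀ s, P.coeff s ∈ F) → ∃ k : ℕ,
        ∀ p l : ℂ → ℂ, Above L T p l → ∀ t : Fin n → ℂ, Function.Injective t → (∀ i, ∃ j ≥ k, t i ∈ T j) →
          MvPolynomial.eval (fun v => numbers L (p (t v.1)) (l (t v.1)) v.2) P ≠ 0) ∧
    -- given degrees and constants
    ∀ V : ℕ → Submodule ℚ ℂ, (∀ j, Module.Finite ℚ (V j)) → Monotone V → ∀ δ : ℕ → ℕ, Monotone δ →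
      ∃ T : ℕ → Finset ℂ, AlmostFull Ξ T ∧ ∀ p l : ℂ → ℂ, Above L T p l →
      ∀ (k : ℕ) (K : IntermediateField ℚ ℂ), FiniteDimensional ℚ K → Module.finrank ℚ K ≤ δ k →
      ∀ P : MvPolynomial (ℂ × Fin 3) ℂ, P ≠ 0 → (∀ v ∈ P.vars, ∃ j ≥ k, v.1 ∈ T j) →
        (∀ v, P.degreeOf v ≤ δ k) → (∀ s, P.coeff s ∈ Submodule.span K (V k : Set ℂ)) →
        MvPolynomial.eval (fun v => numbers L (p v.1) (l v.1) v.2) P ≠ 0 := by
  refine ⟨fun F hF => ?_, fun V hVf hV δ hδ => ?_⟩
  · obtain ⟨T, hT, h⟩ := Pool.Agent.U534.Tens.countable_form (G := AlmostFull Ξ)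
      (fun V hVf hV δ hδ => Pool.Agent.U534.Tens.ellMain L a b ha hb hΞ V hVf hV δ hδ) F hF
    refine ⟨T, hT, fun n P hP hPc => ?_⟩
    obtain ⟨k, hk⟩ := h n P hP hPc
    exact ⟨k, fun p l hpl t ht htT =>
      hk (fun t => numbers L (p t) (l t)) (fun j t ht => numbers_mem L (hpl j t ht)) t ht htT⟩
  · obtain ⟨T, hT, h⟩ := Pool.Agent.U534.Tens.ellMain L a b ha hb hΞ V hVf hV δ hδ
    exact ⟨T, hT, fun p l hpl =>
      h (fun t => numbers L (p t) (l t)) (fun j t ht => numbers_mem L (hpl j t ht))⟩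

end Pool.Agent.Results.MP_c9768e_nt.AlmostFullWindows
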