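import Pool.Agent.U536.CF.TU
import Pool.Agent.Results.MP_c9768e_nt.MultiplicativeValues

/-!
# Elliptic logarithms, their quasi-logarithms and logarithms at integers with large common factors with the values of
multiplicative functions

Let `L` be a lattice with rational invariants, `ω_0 = 1, ω_1, …, ω_m` algebraic numbers (for instance an integral basis of a
number field), `θ_1, …, θ_r` distinct natural numbers, and `F_{il}` (`1 ≤ i ≤ k`, `0 ≤ l ≤ m`) positive multiplicative
functions of at most polynomial growth with `F_{il} p ≤ M p` and different values at the large primes (for example Euler's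
function `φ` or the sum of the divisors). Let `b < 1` and `0 ≤ c < 2 b - 1`. For all `u ∈ [1, N]^(k (m + 1))` but
`N^(k (m + 1)) exp (-(log N)^c)`, for EVERY family `v` of integers `v_{il} ≥ exp ((log N)^b)` such that
`gcd(v_{il}, F_{il}(u_{il})) ≥ v_{i'l'}^ρ` for all indices, the tuple of the vectors `(v_{il})_l` is not related: with
`α_i = ∑_l v_{il} ω_l`, all elliptic logarithms `p` with `℘(p) = α_i + θ_j`, the numbers `ζ(p)` and all logarithms of the
`α_i + θ_j` satisfy with the given numbers `w` no nontrivial relation of degree at most `δ` over any number field of degree at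
most `δ`. Here `ρ < 1` depends only on `L`, the `ω_l`, `θ_j`, `k`, `Q` and `δ`. The families `v` include all families of large
divisors `v_{il}` of the `F_{il}(u_{il})` of comparable size and their multiples by small integers.

Proof. But for few exceptional `n ≤ N`, the number of `n` with `g ∣ F(n)` is at most `N τ_J(g) / g` up to a factor
`exp ((log N)^s)`, `J = (log N)^a`, `a < s < b`, for all `g`: write `n = k u` with `u` squarefree and composed of primes larger
than `N^(1/J)`, `k ≤ exp (4 (log N)^a)`. If `v` is an exceptional family with entries `≤ X`, then the `g = gcd(v, F(u))` are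
divisors of the `v` of size `≥ (X/2)^ρ`; there are few such families of divisors, and the inequality `τ_J^q ≤ τ_K` for `K ≥ J^q`
with Hölder's inequality for tuples bounds the sum of `∏ τ_J(g) / g`. The file `MultiplicativeValues` of the starting library
treats the families `v = (F_{il}(u_{il}))` only, with `N^(k (m + 1)) / (log N)^U` exceptions.
-/

set_option autoImplicit false

open scoped PeriodPair

namespace Pool.Agent.Results.MP_c9768e_nt.CommonFactors

open Pool.Agent.N733.TG (LM lm_totient lm_sigma)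
open Pool.Agent.U536.CF (CommonT avoidT exists_rho)
open Pool.Agent.Results.MP_c9768e_nt.GrowingDegreeTuples (Related)

/-- all `v_{il} ≥ exp ((log N)^b)`, and `gcd(v_{il}, F_{il}(u_{il})) ≥ v_{i'l'}^ρ` for all indices -/
def CommonFamily {k m : ℕ} (F : Fin k → Fin (m + 1) → ℕ → ℕ) (b ρ : ℝ) (N : ℕ) (u v : Fin k → Fin (m + 1) → ℕ) : Prop :=
  ∀ i l, Real.exp (Real.log N ^ b) ≤ (v i l : ℝ) ∧
    ∀ i' l', (v i' l' : ℝ) ^ ρ ≤ (Nat.gcd (v i l) (F i l (u i l)) : ℝ)

/-- **Elliptic logarithms, quasi-logarithms and logarithms at integers with large common factors with the values of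
multiplicative functions.** Let `L` be a lattice with rational invariants `g₂`, `g₃`, let `ω_0 = 1, ω_1, …, ω_m` be algebraic
numbers (for instance an integral basis of a number field) and `θ_1, …, θ_r` distinct natural numbers. Let `k ≥ 1`, `Q`, `δ` be
natural numbers. There is `ρ < 1` such that the following holds. Let `F_{il}`, `1 ≤ i ≤ k`, `0 ≤ l ≤ m`, be multiplicative and
positive, of at most polynomial growth, with `F_{il} p ≤ M p` at the large primes, and injective there; let `b < 1` and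
`0 ≤ c < 2 b - 1`. For all large `N` and all `w_1, …, w_Q ∈ ℂ`, for all `u` with `1 ≤ u_{il} ≤ N` but
`N^(k (m + 1)) exp (-(log N)^c)`, for EVERY family `v` of integers `v_{il} ≥ exp ((log N)^b)` such that
`gcd(v_{il}, F_{il}(u_{il})) ≥ v_{i'l'}^ρ` for all indices, the tuple of the vectors `(v_{il})_l` is not related. Families of
divisors `v_{il} ≥ exp ((log N)^b)` of the `F_{il}(u_{il})` with `v_{i'l'}^ρ ≤ v_{il}` for all indices are such families.
Euler's function and the sum of the divisors are examples of such functions. -/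
theorem result :
    (∀ (L : PeriodPair) (g g' : ℚ), L.g₂ = g → L.g₃ = g' → ∀ (m r : ℕ) (ω : Fin (m + 1) → ℂ),
      (∀ j, IsAlgebraic ℚ (ω j)) → ω 0 = 1 → ∀ θ : Fin r → ℕ, Function.Injective θ →
      ∀ k Q : ℕ, 1 ≤ k → ∀ δ : ℕ, ∃ ρ : ℝ, 0 < ρ ∧ ρ < 1 ∧
      ∀ F : Fin k → Fin (m + 1) → ℕ → ℕ, (∀ i l, LM (F i l)) → ∀ b c : ℝ, b < 1 → 0 ≤ c → c < 2 * b - 1 →
      ∃ N₀ : ℕ, ∀ N : ℕ, N₀ ≤ N → ∀ w : Fin Q → ℂ,
        ({u : Fin k → Fin (m + 1) → ℕ | (∀ i l, 1 ≤ u i l ∧ u i l ≤ N) ∧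
          ¬ ∀ v : Fin k → Fin (m + 1) → ℕ, CommonFamily F b ρ N u v →
            ¬ Related L δ w ω θ fun i l => (v i l : ℤ)}.ncard : ℝ) ≤
          (N : ℝ) ^ (k * (m + 1)) * Real.exp (-(Real.log N ^ c))) ∧
    (LM Nat.totient ∧ LM (fun m => ∑ d ∈ m.divisors, d)) ∧
    ∀ (k m : ℕ) (F : Fin k → Fin (m + 1) → ℕ → ℕ) (b ρ : ℝ) (N : ℕ) (u v : Fin k → Fin (m + 1) → ℕ),
      (∀ i l, Real.exp (Real.log N ^ b) ≤ (v i l : ℝ)) → (∀ i l, v i l ∣ F i l (u i l)) →
      (∀ i l i' l', (v i' l' : ℝ) ^ ρ ≤ (v i l : ℝ)) → CommonFamily F b ρ N u v := by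
  refine ⟨?_, ⟨lm_totient, lm_sigma⟩, fun k m F b ρ N u v h1 h2 h3 i l => ⟨h1 i l, fun i' l' => ?_⟩⟩
  swap
  · rw [Nat.gcd_eq_left (h2 i l)]
    exact h3 i l i' l'
  intro L a b ha hb m r ω hω hω0 θ hθ k Q hk δ
  obtain ⟨C, h⟩ := GrowingDegreeTuples.result L a b ha hb ω hω hω0 θ hθ k Q
  have hc : (0 : ℝ) < 1 / ((δ : ℝ) + 2) ^ C := by positivity
  have hK : 1 ≤ k * (m + 1) := Nat.one_le_iff_ne_zero.2 (by positivity)
  obtain ⟨e, he⟩ : ∃ e : Fin k × Fin (m + 1) ≃ Fin (k * (m + 1)), e = finProdFinEquiv := ⟨_, rfl⟩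
  obtain ⟨ρ, hρ0, hρ1, hρ⟩ := exists_rho hK hc
  refine ⟨ρ, hρ0, hρ1, fun F hF b₁ c₁ hb₁ hc₁ hcb => ?_⟩
  obtain ⟨F', hF'⟩ : ∃ F' : Fin (k * (m + 1)) → ℕ → ℕ, F' = fun t => F (e.symm t).1 (e.symm t).2 := ⟨_, rfl⟩
  obtain ⟨N₀, hN₀⟩ := avoidT (F := F') hK (fun t => by rw [hF']; exact hF _ _) hρ0 hρ1.le hρ (C : ℝ) hb₁ hc₁ hcb
  refine ⟨N₀, fun N hN w => ?_⟩
  have h1 := hN₀ N hN {v : Fin (k * (m + 1)) → ℕ | Related L δ w ω θ fun i l => (v (e (i, l)) : ℤ)} (fun X hX => ?_)
  · refine le_trans ?_ h1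
    have hfin : {v : Fin (k * (m + 1)) → ℕ | (∀ t, 1 ≤ v t ∧ v t ≤ N) ∧
        ∃ x ∈ {v : Fin (k * (m + 1)) → ℕ | Related L δ w ω θ fun i l => (v (e (i, l)) : ℤ)},
        CommonT F' b₁ ρ N v x}.Finite := by
      apply (Set.Finite.pi' fun _ : Fin (k * (m + 1)) => Set.finite_Icc 1 N).subset
      rintro v ⟨h1, _⟩
      exact h1
    have hsub : {u : Fin k → Fin (m + 1) → ℕ | (∀ i l, 1 ≤ u i l ∧ u i l ≤ N) ∧
          ¬ ∀ v : Fin k → Fin (m + 1) → ℕ, CommonFamily F b₁ ρ N u v →
            ¬ Related L δ w ω θ fun i l => (v i l : ℤ)} ⊆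
        (fun (v : Fin (k * (m + 1)) → ℕ) (i : Fin k) (l : Fin (m + 1)) => v (e (i, l))) ''
        {v : Fin (k * (m + 1)) → ℕ | (∀ t, 1 ≤ v t ∧ v t ≤ N) ∧
        ∃ x ∈ {v : Fin (k * (m + 1)) → ℕ | Related L δ w ω θ fun i l => (v (e (i, l)) : ℤ)},
        CommonT F' b₁ ρ N v x} := by
      rintro u ⟨hu1, hu2⟩
      push Not at hu2
      obtain ⟨v, hv1, hv2⟩ := hu2
      refine ⟨fun t => u (e.symm t).1 (e.symm t).2, ⟨fun t => hu1 _ _, fun t => v (e.symm t).1 (e.symm t).2, ?_,
        fun t => ?_⟩, by funext i l; simp⟩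
      · rw [Set.mem_ofPred_eq]
        have h6 : (fun (i : Fin k) (l : Fin (m + 1)) => ((v (e.symm (e (i, l))).1 (e.symm (e (i, l))).2 : ℕ) : ℤ)) =
            fun i l => (v i l : ℤ) := by
          funext i l
          rw [Equiv.symm_apply_apply]
        rw [h6]
        exact hv2
      · rw [hF']
        exact ⟨(hv1 _ _).1, fun t' => (hv1 (e.symm t).1 (e.symm t).2).2 (e.symm t').1 (e.symm t').2⟩
    have h2 := (Set.ncard_le_ncard hsub (hfin.image _)).trans (Set.ncard_image_le hfin)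
    exact_mod_cast h2
  · obtain ⟨hf, hle⟩ := h δ w X hX
    refine le_trans ?_ hle
    have hsub : (fun (v : Fin (k * (m + 1)) → ℕ) (i : Fin k) (l : Fin (m + 1)) => (v (e (i, l)) : ℤ)) ''
        {v : Fin (k * (m + 1)) → ℕ | (∀ t, 2 ≤ v t ∧ v t ≤ X) ∧
          v ∈ {v : Fin (k * (m + 1)) → ℕ | Related L δ w ω θ fun i l => (v (e (i, l)) : ℤ)}} ⊆
        {n : Fin k → Fin (m + 1) → ℤ | (∀ i l, |n i l| ≤ X) ∧ Related L δ w ω θ n} := by
      rintro _ ⟨v, ⟨hv1, hv2⟩, rfl⟩
      refine ⟨fun i l => ?_, hv2⟩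
      rw [Nat.abs_cast]
      exact_mod_cast (hv1 (e (i, l))).2
    have hinj : Function.Injective (fun (v : Fin (k * (m + 1)) → ℕ) (i : Fin k) (l : Fin (m + 1)) => (v (e (i, l)) : ℤ)) := by
      intro u v huv
      funext t
      have := congrFun (congrFun huv (e.symm t).1) (e.symm t).2
      simp only [Prod.mk.eta, Equiv.apply_symm_apply] at this
      exact_mod_cast this
    have h2 := Set.ncard_le_ncard hsub hf
    rw [Set.ncard_image_of_injective _ hinj] at h2
    exact_mod_cast h2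

end Pool.Agent.Results.MP_c9768e_nt.CommonFactors
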