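import Pool.Agent.S821.WinU
import Pool.Agent.Helper620.Wg.KS
import Pool.Agent.Results.MP_c9768e_nt.GrowingDegreeTuples

/-!
# Elliptic logarithms, quasi-logarithms and logarithms at ALL coprime divisors of almost all integers, in growing degree

Let `L` be a lattice with rational invariants, with the curve `E : y² = 4 x³ - g₂ x - g₃`. For a positive integer `t` we consider
the elliptic logarithms `p` of the points of `E` with abscissa `t` (`℘(p) = t`), the numbers `ζ(p)` (integrals of the second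
kind) and `log t`, and the same for `t + θ_j` in the place of `t`, for some given distinct natural numbers `θ_j`.

We show: for almost all integers `m`, for ALL pairwise coprime divisors `s_1, …, s_l`, `t_1, …, t_k` of `m`, where `t_i ≥ ψ(m)` and
the `s_j` are of any size, the `3 k r` numbers at the `t_i + θ_j` satisfy no nontrivial relation of degree `≤ δ` over the field
generated by a number field of degree `≤ δ`, by arbitrary complex numbers `w_1, …, w_q` (for instance the periods and
quasi-periods) and by the `3 l r` numbers at the `s_i + θ_j`. Here `ψ` tends to infinity as slowly as we like,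
`δ + 2 = (log_2 min t_i) ^ (1 / C)` tends to infinity with the `t_i`, there is no bound for the heights of the coefficients, all
determinations are allowed, and `k`, `l`, `q` may be any numbers up to a function `K(m)` which tends to infinity. The number of
the exceptions `m ≤ N`, for `t_i ≥ y` and the degree `δ`, is at most `C (δ + 2)^C y^(-1/(δ + 2)^C) N`, uniformly in `w`, `δ`, `y`,
`N`; the same holds for the prime factors up to `N^(1/(k + l))` of the values of any polynomial.

The starting theorem `GrowingDegreeTuples` bounds the number of the related tuples in cubes. This does not suffice here: the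
divisors of an integer are of very different sizes, and the bound `C T^(k - c)` does not exclude that all the pairs `(t_1, t_2)`
with `t_1 ≤ t_2^(1 - c)` are related.

Proof. For fixed small divisors `s` the numbers at the `s_i + θ_j` are additional constants; the exceptional integers with given
`s` are at most `C y^(-c) N / (s_1 ⋯ s_l)`, and the sum over all `s_i ≤ y` costs a power of `log y`; the divisors `s_i > y` can
be added to the `t_i`. For fixed constants the `t_i` are ordered by size; a related tuple has a first place where the numbers at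
`t_j` are related to those at the smaller `t_i` and to the constants. In a window of length `M ^ (1/(δ + 2)^C)` there is only a
bounded number of such `t_j` (windows of the starting library `Pool.Agent.R351.GD.S`; `Pool.Agent.S821.WinU`), and the sum of
`1 / (t_j ⋯ t_k)` over these minimal tuples is at most `C (δ + 2)^C y^(-c)` (`Pool.Agent.S821.Split`, `SplitM`, `Small`,
`SmallM`). The exceptions are summed over all degrees.
-/

set_option autoImplicit false

open Filter

open scoped PeriodPair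

namespace Pool.Agent.Results.MP_c9768e_nt.CoprimeDivisors

open Module
open Pool.Agent.N826.IT.Orb (AlmostAll)
open Pool.Agent.S821.Small (LawS PairwiseCoprime relK_move)
open Pool.Agent.R351.GD (RelK)
open Pool.Agent.Y916.Sl (xE DmE fe linkE detE pf_spec tW)
open Pool.Agent.Y916.Hy (perV disc_ne Fe_good)
open Pool.Agent.Results.MP_c9768e_nt.GrowingDegreeTuples (zeta)

/-- `℘(p_(i,j)) = exp(g_(i,j)) = t_i + θ_j` -/
def Logs (L : PeriodPair) {k r : ℕ} (θ : Fin r → ℕ) (t : Fin k → ℕ) (p g : Fin k × Fin r → ℂ) : Prop :=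
  ∀ a, p a ∉ L.lattice ∧ ℘[L] (p a) = t a.1 + θ a.2 ∧ Complex.exp (g a) = t a.1 + θ a.2

/-- the numbers `p_(i,j)`, `ζ(p_(i,j))`, `g_(i,j)` -/
noncomputable def numbers (L : PeriodPair) {k r : ℕ} (p g : Fin k × Fin r → ℂ) (x : (Fin k × Fin r) × Fin 3) : ℂ :=
  (![p x.1, zeta L (p x.1), g x.1] : Fin 3 → ℂ) x.2

/-- For some elliptic logarithms `p'`, `p` and logarithms `g'`, `g` of the numbers `s_i + θ_j` and `t_i + θ_j` a polynomial of
total degree at most `δ` over some number field of degree at most `δ` vanishes at the numbers `w`, `(p', ζ(p'), g')` and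
`(p, ζ(p), g)`, but it does not vanish identically in the variables of the last ones after the substitution of the numbers `w`
and `(p', ζ(p'), g')` alone. -/
def RelatedOver (L : PeriodPair) {q l k r : ℕ} (θ : Fin r → ℕ) (δ : ℕ) (w : Fin q → ℂ) (s : Fin l → ℕ) (t : Fin k → ℕ) :
    Prop :=
  ∃ (p' g' : Fin l × Fin r → ℂ) (p g : Fin k × Fin r → ℂ), Logs L θ s p' g' ∧ Logs L θ t p g ∧
    ∃ F : IntermediateField ℚ ℂ, FiniteDimensional ℚ F ∧ finrank ℚ F ≤ δ ∧
      ∃ P : MvPolynomial ((Fin q ⊕ (Fin l × Fin r) × Fin 3) ⊕ (Fin k × Fin r) × Fin 3) F, P.totalDegree ≤ δ ∧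
        MvPolynomial.aeval (Sum.elim (Sum.elim w (numbers L p' g')) (numbers L p g)) P = 0 ∧
        MvPolynomial.aeval (Sum.elim (fun o => MvPolynomial.C (Sum.elim w (numbers L p' g') o)) MvPolynomial.X) P ≠
          (0 : MvPolynomial ((Fin k × Fin r) × Fin 3) ℂ)

/-- all determinations in terms of the chosen ones -/
theorem det_mem (a b : ℚ) (L : PeriodPair) {k r : ℕ} {θ : Fin r → ℕ} {t : Fin k → ℕ} {p g : Fin k × Fin r → ℂ}
    (h : Logs L θ t p g) (K : IntermediateField ℚ ℂ) (M : Submodule K ℂ) (hM : ∀ j : Fin 5, perV L j ∈ M)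
    (x : (Fin k × Fin r) × Fin 3) : ∃ c : K, c ≠ 0 ∧
      numbers L p g x - c * xE a b L ((t x.1.1 : ℂ) + θ x.1.2) ((fe a b).symm x.2) ∈ M := by
  obtain ⟨h1, h2, h3⟩ := h x.1
  obtain ⟨c, hc, h4⟩ := detE a b L h1 h2 h3 (K := K) M (fun j n => by
    have h5 : (n : ℂ) * perV L j = (n : K) • perV L j := by
      rw [Algebra.smul_def]
      simp
    rw [h5]
    exact Submodule.smul_mem _ _ (hM j)) ((fe a b).symm x.2)
  rw [Equiv.apply_symm_apply] at h4
  exact ⟨c, hc, h4⟩

/-- the law, polynomial in the degree -/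
theorem law_ell (L : PeriodPair) (a b : ℚ) (ha : L.g₂ = a) (hb : L.g₃ = b) {r : ℕ} (θ : Fin r → ℕ)
    (hθ : Function.Injective θ) (l k q : ℕ) : ∃ C : ℕ, 1 ≤ C ∧ ∀ (δ : ℕ) (w : Fin q → ℂ),
    LawS l k (fun s t => (∃ i, t i < 0) ∨ RelatedOver L θ δ w s t) (1 / ((δ : ℝ) + 2) ^ C) (C * ((δ : ℝ) + 2) ^ C) := by
  classical
  have hab : a ^ 3 - 27 * b ^ 2 ≠ 0 := by
    have h1 := disc_ne Pool.Agent.Y153.HE.t_qp L
    rw [ha, hb] at h1
    exact_mod_cast h1
  have hF := Fe_good a b hab
  obtain ⟨E₁, hE₁⟩ := linkE a b tW L ha hb hF 1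
  obtain ⟨C, hC1, hC⟩ := Pool.Agent.S821.WinU.law_theta _ (Pool.Agent.R351.GD.inpE_e a b hF) (xE a b L) (DmE L) (perV L)
    _ E₁ hE₁ θ hθ 0 (fun n _ j => by
      obtain ⟨z, hz, hz2⟩ := Wg.wp_surj L ((n : ℂ) + θ j)
      exact pf_spec L hz hz2) l k q
  refine ⟨C, hC1, fun δ w => (hC δ w).mono fun s t ht => ?_⟩
  rcases ht with ht | ⟨p', g', p, g, hs, ht, hR⟩
  · exact Or.inl ht
  · right
    have h1 : RelK δ (Sum.elim w (numbers L p' g')) (numbers L p g) := hR
    obtain ⟨W, hW⟩ : ∃ W : (Fin q ⊕ Fin 5) ⊕ (Fin l × Fin r) × Fin 3 → ℂ, W = Sum.elim (Sum.elim w (perV L))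
      (fun x : (Fin l × Fin r) × Fin 3 => xE a b L ((s x.1.1 : ℂ) + θ x.1.2) ((fe a b).symm x.2)) := ⟨_, rfl⟩
    have hper : ∀ (K : IntermediateField ℚ ℂ) (j : Fin 5), perV L j ∈ Submodule.span K (insert 1 (Set.range W)) :=
      fun K j => Submodule.subset_span (Set.mem_insert_of_mem _ ⟨Sum.inl (Sum.inr j), by rw [hW]; rfl⟩)
    have h2 : RelK δ W (fun x : (Fin k × Fin r) × Fin 3 =>
        xE a b L ((t x.1.1 : ℂ) + θ x.1.2) ((fe a b).symm x.2)) :=
      Pool.Agent.S821.WinU.relK_affine h1 W _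
      (fun K j => by
        rcases j with j | x
        · exact Submodule.subset_span (Set.mem_insert_of_mem _ ⟨Sum.inl (Sum.inl j), by rw [hW]; rfl⟩)
        · obtain ⟨c, -, h3⟩ := det_mem a b L hs K (Submodule.span K (insert 1 (Set.range W))) (hper K) x
          have h4 := Submodule.smul_mem (Submodule.span K (insert 1 (Set.range W))) c
            (Submodule.subset_span (Set.mem_insert_of_mem _ ⟨Sum.inr x, rfl⟩))
          have h5 := Submodule.add_mem _ h3 h4
          have h6 : numbers L p' g' x - c * xE a b L ((s x.1.1 : ℂ) + θ x.1.2) ((fe a b).symm x.2) +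
              c • W (Sum.inr x) = numbers L p' g' x := by
            rw [Algebra.smul_def, hW]
            change numbers L p' g' x - c * xE a b L ((s x.1.1 : ℂ) + θ x.1.2) ((fe a b).symm x.2) +
              (c : ℂ) * xE a b L ((s x.1.1 : ℂ) + θ x.1.2) ((fe a b).symm x.2) = numbers L p' g' x
            ring
          rw [h6] at h5
          exact h5)
      (fun K x => det_mem a b L ht K (Submodule.span K (insert 1 (Set.range W))) (hper K) x)
    rw [hW] at h2
    refine relK_move h2 _ _ (fun x => (x.1.1, (x.1.2, (fe a b).symm x.2))) ?_ (fun _ => rfl) fun o => ?_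
    · rintro ⟨⟨i, j⟩, x⟩ ⟨⟨i', j'⟩, x'⟩ h
      simp only [Prod.mk.injEq, EmbeddingLike.apply_eq_iff_eq] at h ⊢
      exact ⟨⟨h.1, h.2.1⟩, h.2.2⟩
    · rcases o with o | x
      · exact ⟨Sum.inl (Sum.inl o), rfl, fun _ h => by cases h⟩
      · exact ⟨Sum.inl (Sum.inr (x.1.1, (x.1.2, (fe a b).symm x.2))), rfl, fun _ h => by cases h⟩

/-- **All coprime divisors of almost all integers.** Let `L` be a lattice with rational invariants `g₂`, `g₃` and let
`θ_1, …, θ_r` be distinct natural numbers. There is a function `C(l, k, q)` with the following properties.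

(1) For all `l`, `k`, `q`, `δ`, all `w ∈ ℂ^q` and all `y, N ≥ 1`: for all integers `m ≤ N` but at most
`C (δ + 2)^C y^(-1/(δ + 2)^C) N`, for ALL pairwise coprime divisors `s_1, …, s_l`, `t_1, …, t_k` of `m` with `t_i ≥ y` there is no
relation of degree at most `δ` over a number field of degree at most `δ` between the numbers `w_j`, the numbers `p'`, `ζ(p')`,
`log` at the `s_i + θ_j` and the numbers `p`, `ζ(p)`, `log` at the `t_i + θ_j` which is nontrivial in the last ones.

(2) For every integral polynomial `f ≠ 0` and `l`, `k`, `q` there is `C'` such that for all `δ`, `w`, `y, N ≥ 1`, for all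
integers `m ≤ N` but at most `C' (δ + 2)^C y^(-1/(δ + 2)^C) N`, the same is true for all distinct prime factors `s_1, …, s_l`,
`t_1, …, t_k` of `f(m)` with `s_j, t_i ≤ N^(1/(l + k))`, `t_i ≥ y`.

(3) Let `w_0, w_1, …` be any complex numbers. For every function `ψ` which tends to infinity there is a function `K` which tends
to infinity such that for almost all `m`, for all `l, k, q ≤ K(m)`, `k ≥ 1`, all `δ` and all pairwise coprime divisors
`s_1, …, s_l`, `t_1, …, t_k` of `m` with `t_i ≥ ψ(m)` and `t_i ≥ 2^((δ + 2)^C)` there is no relation as in (1) with the first `q`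
numbers `w`. -/
theorem result (L : PeriodPair) (a b : ℚ) (ha : L.g₂ = a) (hb : L.g₃ = b) {r : ℕ} (θ : Fin r → ℕ)
    (hθ : Function.Injective θ) : ∃ C : ℕ → ℕ → ℕ → ℕ,
    (∀ (l k q δ : ℕ) (w : Fin q → ℂ) (y N : ℕ), 1 ≤ y → 1 ≤ N →
        ({m : ℕ | 1 ≤ m ∧ m ≤ N ∧ ∃ (s : Fin l → ℕ) (t : Fin k → ℕ), (∀ i, s i ∣ m) ∧ (∀ i, t i ∣ m ∧ y ≤ t i) ∧
          PairwiseCoprime s t ∧ RelatedOver L θ δ w s t}.ncard : ℝ) ≤
          C l k q * ((δ : ℝ) + 2) ^ C l k q * (y : ℝ) ^ (-(1 / ((δ : ℝ) + 2) ^ C l k q)) * N) ∧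
    (∀ f : Polynomial ℤ, f ≠ 0 → ∀ l k q : ℕ, ∃ C' : ℝ, ∀ (δ : ℕ) (w : Fin q → ℂ) (y N : ℕ), 1 ≤ y → 1 ≤ N →
        ({m : ℕ | 1 ≤ m ∧ m ≤ N ∧ ∃ (s : Fin l → ℕ) (t : Fin k → ℕ),
          (∀ i, (s i).Prime ∧ (s i : ℤ) ∣ f.eval (m : ℤ) ∧ s i ^ (l + k) ≤ N) ∧
          (∀ i, (t i).Prime ∧ (t i : ℤ) ∣ f.eval (m : ℤ) ∧ y ≤ t i ∧ t i ^ (l + k) ≤ N) ∧ PairwiseCoprime s t ∧
          RelatedOver L θ δ w s t}.ncard : ℝ) ≤
          C' * ((δ : ℝ) + 2) ^ C l k q * (y : ℝ) ^ (-(1 / ((δ : ℝ) + 2) ^ C l k q)) * N) ∧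
    (∀ (w : ℕ → ℂ) (ψ : ℕ → ℕ), Tendsto ψ atTop atTop →
      ∃ K : ℕ → ℕ, Tendsto K atTop atTop ∧ AlmostAll (fun m => ∀ l ≤ K m, ∀ k ≤ K m, 1 ≤ k → ∀ q ≤ K m, ∀ (δ : ℕ)
        (s : Fin l → ℕ) (t : Fin k → ℕ), (∀ i, s i ∣ m) → (∀ i, t i ∣ m ∧ ψ m ≤ t i ∧ 2 ^ ((δ + 2) ^ C l k q) ≤ t i) →
          PairwiseCoprime s t → ¬ RelatedOver L θ δ (fun j : Fin q => w j) s t)) :=
  Pool.Agent.S821.Pack.pack (n₀ := 0) (fun l k q δ w s t => RelatedOver (l := l) (k := k) (q := q) L θ δ w s t)
    (law_ell L a b ha hb θ hθ)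

end Pool.Agent.Results.MP_c9768e_nt.CoprimeDivisors
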