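import Pool.Agent.U405.RS.G5
import Pool.Agent.Results.MP_c9768e_nt.GrowingDegreeTuples

/-!
# Elliptic logarithms, their quasi-logarithms and logarithms at values of multiplicative functions in thin sets

Let `F_1, …, F_k` be positive multiplicative functions of at most polynomial growth which for each `a ≥ 1` are injective at the
powers `p ^ a` of the large primes and at most `M p ^ a` there; for example Euler's function or the sum of the divisors. Here the functions are indexed by pairs `(i, l)`, `1 ≤ i ≤ k`, `0 ≤ l ≤ m`. Let `L` be a lattice with rational invariants,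
`ω_0 = 1, ω_1, …, ω_m` algebraic numbers (for instance an integral basis of a number field) and `θ_1, …, θ_r` distinct natural
numbers. For `u` in a product of `k (m + 1)` thin sets let `α_i = ∑_l F_{il}(u_{il}) ω_l`, for instance
`α_i = φ(p + 1) + φ(q - 1) √2` with primes `p`, `q`. We show that for almost all these `u` all elliptic
logarithms `p` with `℘(p) = α_i + θ_j`, the numbers `ζ(p)` and all logarithms of the `α_i + θ_j` satisfy with the given
numbers `w` no nontrivial relation of degree at most `δ` over any number field of degree at most `δ`.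

The starting theorem `MultiplicativeValues` of this problem treats the average over all tuples `m ∈ [1, N]^k`. Here each `m_i` runs
over a thin set: the shifted primes `p + a_i`, `p ≤ x`, for an arbitrary integer `a_i`, or an interval `(u, u + h]` with
`x^τ ≤ h ≤ x`, where `u ≤ x` and `1 - c / k < τ ≤ 1`; both kinds can be mixed. The tuples of values `(F_1(m_1), …, F_k(m_k))` are taken with large and
uneven multiplicities, so that the size of the exceptional set says nothing about them.

Proof. Own tool `Pool.Agent.U405.RS`. A thin set `S` has at most `B g^ω(n) |S| / n` multiples of `n` for every `n ≤ x^δ` (for the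
shifted primes by the Brun-Titchmarsh inequality of the library). Write `m_i = n_i w_i` with `n_i` composed of the primes
`≤ z = x^(1 / J)`, `J` a small multiple of `log log x`. By Rankin's method one has `n_i ≤ x^η` for most `m_i` in `S_i`; and `w_i` has at
most `J` prime factors and exponents `≤ J`, so that it is determined by `F_i(w_i)` up to `x^o(1)` possibilities. A slab of the
exceptional set is then covered by the fibres over one coordinate, and the saving `X^c` of the exceptional set is larger than the loss
`x^(k (1 - τ))` from the short intervals. The bound for the exceptional tuples is the starting theorem `GrowingDegreeTuples`.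
-/

set_option autoImplicit false

open scoped PeriodPair

namespace Pool.Agent.Results.MP_c9768e_nt.ThinTuples

open Pool.Agent.U405.RS
open Pool.Agent.Results.MP_c9768e_nt.GrowingDegreeTuples (Related)

/-- **Elliptic logarithms, quasi-logarithms and logarithms over thin sets.** Let `L` be a lattice
with rational invariants `g₂`, `g₃`, let `ω_0 = 1, ω_1, …, ω_m` be algebraic numbers (for instance an integral basis of a
number field) and `θ_1, …, θ_r` distinct natural numbers, `k ≥ 1`, and let `Q`, `δ` be natural numbers. The pairs `(i, l)`,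
`i < k`, `l ≤ m`, are numbered by `finProdFinEquiv`. There is `c > 0` such that for all families `F` of `k (m + 1)` functions in
the class `PM`, all `U` and, uniformly, all `w ∈ ℂ^Q`, in the sense of `ThinAll c F U`
(with a saving of `(log x)^U`, uniformly in the parameter, for almost all `m` in all products `S_1 × ⋯ × S_k` of sets of shifted
primes `p + a_i`, `p ≤ x`, and intervals `(u, u + h]`, `u ≤ x`, `x^τ ≤ h ≤ x`, whenever `0 < τ ≤ 1`, `k τ > k - c`), with `k (m + 1)` in place of `k`,
all `F_{il}(u_{il})` are at least `2` and the tuple of the vectors `(F_{il}(u_{il}))_l` is not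
related. Euler's function, the sum of the divisors and the identity are in the class. -/
theorem result :
    (∀ (L : PeriodPair) (a b : ℚ), L.g₂ = a → L.g₃ = b → ∀ (m r : ℕ) (ω : Fin (m + 1) → ℂ),
      (∀ j, IsAlgebraic ℚ (ω j)) → ω 0 = 1 → ∀ θ : Fin r → ℕ, Function.Injective θ →
      ∀ k Q δ : ℕ, 1 ≤ k → ∃ c : ℝ, 0 < c ∧ ∀ F : Fin (k * (m + 1)) → ℕ → ℕ, (∀ p, PM (F p)) → ∀ U : ℕ,
        ThinAll c F U (fun (w : Fin Q → ℂ) (v : Fin (k * (m + 1)) → ℕ) => (∀ p, 2 ≤ v p) ∧
          ¬ Related L δ w ω θ fun i l => (v (finProdFinEquiv (i, l)) : ℤ))) ∧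
    (PM Nat.totient ∧ PM (fun m => ∑ d ∈ m.divisors, d) ∧ PM (fun m => m)) := by
  refine ⟨fun L a b ha hb m r ω hω hω0 θ hθ k Q δ hk => ?_, examplesT⟩
  obtain ⟨C, h⟩ := GrowingDegreeTuples.result L a b ha hb ω hω hω0 θ hθ k Q
  have hc : (0 : ℝ) < 1 / ((δ : ℝ) + 2) ^ C := by positivity
  have hK : 1 ≤ k * (m + 1) := Nat.one_le_iff_ne_zero.2 (by positivity)
  obtain ⟨e, he⟩ : ∃ e : Fin k × Fin (m + 1) ≃ Fin (k * (m + 1)), e = finProdFinEquiv := ⟨_, rfl⟩
  rw [← he]
  refine ⟨_, hc, fun F hF U => thinAll_two hK hF hc (C : ℝ)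
    (fun (w : Fin Q → ℂ) (v : Fin (k * (m + 1)) → ℕ) => ¬ Related L δ w ω θ fun i l => (v (e (i, l)) : ℤ))
    (fun w X hX => ?_) U⟩
  obtain ⟨hf, hle⟩ := h δ w X hX
  have hcast : (((k * (m + 1) : ℕ) : ℝ) - 1 / ((δ : ℝ) + 2) ^ C) = (k : ℝ) * (m + 1) - 1 / ((δ : ℝ) + 2) ^ C := by push_cast; ring
  have hsub : (fun (v : Fin (k * (m + 1)) → ℕ) (i : Fin k) (l : Fin (m + 1)) => (v (e (i, l)) : ℤ)) ''
      {v : Fin (k * (m + 1)) → ℕ | (∀ t, 2 ≤ v t ∧ v t ≤ X) ∧
        ¬ ¬ Related L δ w ω θ fun i l => (v (e (i, l)) : ℤ)} ⊆
      {n : Fin k → Fin (m + 1) → ℤ | (∀ i l, |n i l| ≤ X) ∧ Related L δ w ω θ n} := by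
    rintro _ ⟨v, ⟨hv1, hv2⟩, rfl⟩
    refine ⟨fun i l => ?_, not_not.1 hv2⟩
    rw [Nat.abs_cast]
    exact_mod_cast (hv1 (e (i, l))).2
  have hinj : Function.Injective (fun (v : Fin (k * (m + 1)) → ℕ) (i : Fin k) (l : Fin (m + 1)) => (v (e (i, l)) : ℤ)) := by
    intro u v huv
    funext t
    have := congrFun (congrFun huv (e.symm t).1) (e.symm t).2
    simp only [Prod.mk.eta, Equiv.apply_symm_apply] at this
    exact_mod_cast this
  have h2 := Set.ncard_le_ncard hsub hf
  rw [Set.ncard_image_of_injective _ hinj] at h2
  refine le_trans (Nat.cast_le.2 h2) (hle.trans (le_of_eq ?_))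
  first
    | rfl
    | (rw [hcast])
    | (rw [← hcast])
    | (congr 2 <;> push_cast <;> ring)

end Pool.Agent.Results.MP_c9768e_nt.ThinTuples
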